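import Mathlib

/-!
# MP_bd4c56_lc: two processor types suffice for modular real-time trellis automata

For every modular real-time trellis automaton `A` there is a modular real-time trellis automaton
`B` accepting the same language whose processors are of at most two types.
-/

namespace Pool.Agent.Results.MP_bd4c56_lc.TwoTypes

open Function

/-- The array `M^k_δ` (size `p ^ k × q ^ k`) of the substitution `M` (only the entries
`M δ a b` with `a < p`, `b < q` matter): `M^0_δ` is the one-entry array `δ`, and `M^(k+1)_δ` arises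
from `M^1_δ` by replacing each entry `M δ a b` with the block `M^k` of that entry. -/
def arr {Δ : Type} (p q : ℕ) (M : Δ → ℕ → ℕ → Δ) : ℕ → Δ → ℕ → ℕ → Δ
  | 0, δ, _, _ => δ
  | k + 1, δ, i, j => arr p q M k (M δ (i / p ^ k) (j / q ^ k)) (i % p ^ k) (j % q ^ k)

/-- The labelling `T` is modular. -/
def IsModular {Δ : Type} (T : ℕ → ℕ → Δ) : Prop :=
  ∃ p q : ℕ, 2 ≤ p ∧ 2 ≤ q ∧ ∃ δ₀ : Δ, ∃ M : Δ → ℕ → ℕ → Δ, M δ₀ 0 0 = δ₀ ∧
    ∀ i j : ℕ, ∃ K : ℕ, ∀ k : ℕ, K ≤ k → T i j = arr p q M k δ₀ i j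

/-- A real-time trellis automaton over the input alphabet `σ`; the symbol `λ` is `none`. -/
structure RTSTA (σ : Type) where
  /-- the working alphabet -/
  Γ : Type
  /-- the labels -/
  Δ : Type
  finΓ : Finite Γ
  finΔ : Finite Δ
  /-- the embedding of the input alphabet into the working alphabet -/
  inp : σ → Γ
  inp_inj : Injective inp
  /-- the accepting symbols -/
  acc : Set Γ
  /-- the labelling of the trellis -/
  T : ℕ → ℕ → Δ
  /-- the transition functions -/
  g : Δ → Option Γ → Option Γ → Γ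

variable {σ : Type}

/-- The output of node `(i, j)` when the input letters are `w 0, w 1, ...` and the node is `d`
levels away from the input level (so the input has length `i + j + d + 1`). -/
def RTSTA.out (A : RTSTA σ) (w : ℕ → σ) : ℕ → ℕ → ℕ → A.Γ
  | 0, i, j => A.g (A.T i j) none (some (A.inp (w i)))
  | d + 1, i, j => A.g (A.T i j) (some (A.out w d i (j + 1))) (some (A.out w d (i + 1) j))

/-- The language accepted by `A` (a set of nonempty words). -/
def RTSTA.lang (A : RTSTA σ) : Set (List σ) :=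
  {w | ∃ h : w ≠ [], A.out (fun i => w.getD i (w.head h)) (w.length - 1) 0 0 ∈ A.acc}

/-- The number of types of processors: the number of distinct transition functions. -/
noncomputable def RTSTA.types (A : RTSTA σ) : ℕ := (Set.range A.g).ncard

/-- `A` is a modular real-time trellis automaton. -/
def RTSTA.Modular (A : RTSTA σ) : Prop := IsModular A.T

/-! ### Substitutions -/

theorem arr_succ' {Δ : Type} {p q : ℕ} (M : Δ → ℕ → ℕ → Δ) :
    ∀ (k : ℕ) (δ : Δ) (i j s t : ℕ), i < p ^ k → j < q ^ k → s < p → t < q →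
      arr p q M (k + 1) δ (p * i + s) (q * j + t) = M (arr p q M k δ i j) s t := by
  intro k
  induction k with
  | zero =>
    intro δ i j s t hi hj hs ht
    have hi' : i = 0 := by simpa using hi
    have hj' : j = 0 := by simpa using hj
    subst hi' hj'
    simp [arr]
  | succ k ih =>
    intro δ i j s t hi hj hs ht
    have hp : 0 < p := by omega
    have hq : 0 < q := by omega
    have e1 : (p * i + s) / p ^ (k + 1) = i / p ^ k := by
      rw [pow_succ, mul_comm (p ^ k) p, ← Nat.div_div_eq_div_mul]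
      congr 1
      rw [Nat.mul_add_div hp, Nat.div_eq_of_lt hs, add_zero]
    have e2 : (q * j + t) / q ^ (k + 1) = j / q ^ k := by
      rw [pow_succ, mul_comm (q ^ k) q, ← Nat.div_div_eq_div_mul]
      congr 1
      rw [Nat.mul_add_div hq, Nat.div_eq_of_lt ht, add_zero]
    have e3 : (p * i + s) % p ^ (k + 1) = p * (i % p ^ k) + s := by
      rw [pow_succ, mul_comm (p ^ k) p, Nat.mod_mul, Nat.mul_add_mod, Nat.mod_eq_of_lt hs,
        Nat.mul_add_div hp, Nat.div_eq_of_lt hs, add_zero, add_comm]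
    have e4 : (q * j + t) % q ^ (k + 1) = q * (j % q ^ k) + t := by
      rw [pow_succ, mul_comm (q ^ k) q, Nat.mod_mul, Nat.mul_add_mod, Nat.mod_eq_of_lt ht,
        Nat.mul_add_div hq, Nat.div_eq_of_lt ht, add_zero, add_comm]
    have hL : arr p q M (k + 1 + 1) δ (p * i + s) (q * j + t)
        = arr p q M (k + 1) (M δ ((p * i + s) / p ^ (k + 1)) ((q * j + t) / q ^ (k + 1)))
          ((p * i + s) % p ^ (k + 1)) ((q * j + t) % q ^ (k + 1)) := rfl
    have hR : arr p q M (k + 1) δ i j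
        = arr p q M k (M δ (i / p ^ k) (j / q ^ k)) (i % p ^ k) (j % q ^ k) := rfl
    rw [hL, e1, e2, e3, e4, hR]
    exact ih _ _ _ _ _ (Nat.mod_lt _ (pow_pos hp k)) (Nat.mod_lt _ (pow_pos hq k)) hs ht

/-- `M` describes the labelling `T` by blocks of size `p × q`. -/
def Sub {Δ : Type} (p q : ℕ) (T : ℕ → ℕ → Δ) (M : Δ → ℕ → ℕ → Δ) : Prop :=
  ∀ i j s t : ℕ, s < p → t < q → T (p * i + s) (q * j + t) = M (T i j) s t

theorem lt_pow_of_le {p n k : ℕ} (hp : 2 ≤ p) (h : n ≤ k) : n < p ^ k :=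
  lt_of_lt_of_le (Nat.lt_two_pow_self) (le_trans (Nat.pow_le_pow_left hp n)
    (Nat.pow_le_pow_right (by omega) h))

theorem sub_of_modular {Δ : Type} {T : ℕ → ℕ → Δ} (h : IsModular T) :
    ∃ p q : ℕ, 2 ≤ p ∧ 2 ≤ q ∧ ∃ M, Sub p q T M := by
  obtain ⟨p, q, hp, hq, δ₀, M, -, hT⟩ := h
  refine ⟨p, q, hp, hq, M, ?_⟩
  intro i j s t hs ht
  obtain ⟨K₁, h₁⟩ := hT (p * i + s) (q * j + t)
  obtain ⟨K₂, h₂⟩ := hT i j
  have hk1 : K₁ ≤ (K₁ + K₂ + i + j) + 1 := by omega
  have hk2 : K₂ ≤ K₁ + K₂ + i + j := by omega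
  rw [h₁ _ hk1, h₂ _ hk2]
  exact arr_succ' M _ _ _ _ _ _ (lt_pow_of_le hp (by omega)) (lt_pow_of_le hq (by omega)) hs ht

theorem modular_of_sub {Δ : Type} {T : ℕ → ℕ → Δ} {p q : ℕ} (hp : 2 ≤ p) (hq : 2 ≤ q)
    {M : Δ → ℕ → ℕ → Δ} (h : Sub p q T M) : IsModular T := by
  have key : ∀ k i j : ℕ, i < p ^ k → j < q ^ k → T i j = arr p q M k (T 0 0) i j := by
    intro k
    induction k with
    | zero =>
      intro i j hi hj
      have hi' : i = 0 := by simpa using hi
      have hj' : j = 0 := by simpa using hj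
      subst hi' hj'
      rfl
    | succ k ih =>
      intro i j hi hj
      have h1 : i / p < p ^ k := by
        rw [Nat.div_lt_iff_lt_mul (by omega)]
        simpa [pow_succ] using hi
      have h2 : j / q < q ^ k := by
        rw [Nat.div_lt_iff_lt_mul (by omega)]
        simpa [pow_succ] using hj
      have h3 : i % p < p := Nat.mod_lt _ (by omega)
      have h4 : j % q < q := Nat.mod_lt _ (by omega)
      have := arr_succ' (p := p) (q := q) M k (T 0 0) (i / p) (j / q) (i % p) (j % q) h1 h2 h3 h4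
      rw [Nat.div_add_mod, Nat.div_add_mod, ← ih _ _ h1 h2] at this
      rw [this, ← h _ _ _ _ h3 h4, Nat.div_add_mod, Nat.div_add_mod]
  refine ⟨p, q, hp, hq, T 0 0, M, ?_, ?_⟩
  · have := h 0 0 0 0 (by omega) (by omega)
    simpa using this.symm
  · intro i j
    refine ⟨i + j, fun k hk => key k i j (lt_pow_of_le hp (by omega)) (lt_pow_of_le hq (by omega))⟩

theorem sub_pow {Δ : Type} {T : ℕ → ℕ → Δ} {p q : ℕ} (hp : 2 ≤ p) (hq : 2 ≤ q)
    {M : Δ → ℕ → ℕ → Δ} (h : Sub p q T M) (k : ℕ) : ∃ M', Sub (p ^ k) (q ^ k) T M' := by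
  induction k with
  | zero =>
    refine ⟨fun δ _ _ => δ, ?_⟩
    intro i j s t hs ht
    have hs' : s = 0 := by simpa using hs
    have ht' : t = 0 := by simpa using ht
    subst hs' ht'
    simp
  | succ k ih =>
    obtain ⟨M', h'⟩ := ih
    refine ⟨fun δ s t => M (M' δ (s / p) (t / q)) (s % p) (t % q), ?_⟩
    intro i j s t hs ht
    have hs1 : s / p < p ^ k := by
      rw [Nat.div_lt_iff_lt_mul (by omega)]
      simpa [pow_succ] using hs
    have ht1 : t / q < q ^ k := by
      rw [Nat.div_lt_iff_lt_mul (by omega)]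
      simpa [pow_succ] using ht
    have h3 : s % p < p := Nat.mod_lt _ (by omega)
    have h4 : t % q < q := Nat.mod_lt _ (by omega)
    have e1 : p ^ (k + 1) * i + s = p * (p ^ k * i + s / p) + s % p := by
      conv_lhs => rw [← Nat.div_add_mod s p]
      ring
    have e2 : q ^ (k + 1) * j + t = q * (q ^ k * j + t / q) + t % q := by
      conv_lhs => rw [← Nat.div_add_mod t q]
      ring
    rw [e1, e2, h _ _ _ _ h3 h4, h' _ _ _ _ hs1 ht1]

/-! ### The window of a labelling -/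

/-- The labelling `T`, extended by `none` to negative coordinates. -/
def ext {Δ : Type} (T : ℕ → ℕ → Δ) (x y : ℤ) : Option Δ :=
  if 0 ≤ x ∧ 0 ≤ y then some (T x.toNat y.toNat) else none

theorem ext_nat {Δ : Type} (T : ℕ → ℕ → Δ) (x y : ℕ) : ext T x y = some (T x y) := by
  simp [ext]

theorem ext_sub {Δ : Type} {T : ℕ → ℕ → Δ} {P Q : ℕ} (hP : 0 < P) (hQ : 0 < Q)
    {M : Δ → ℕ → ℕ → Δ} (h : Sub P Q T M) (X Y u v : ℤ) :
    ext T (P * X + u) (Q * Y + v)
      = (ext T (X + u / P) (Y + v / Q)).map (fun δ => M δ (u % P).toNat (v % Q).toNat) := by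
  have hP' : (0 : ℤ) < P := by exact_mod_cast hP
  have hQ' : (0 : ℤ) < Q := by exact_mod_cast hQ
  have e1 : (P : ℤ) * X + u = P * (X + u / P) + u % P := by
    conv_lhs => rw [← Int.mul_ediv_add_emod u P]
    ring
  have e2 : (Q : ℤ) * Y + v = Q * (Y + v / Q) + v % Q := by
    conv_lhs => rw [← Int.mul_ediv_add_emod v Q]
    ring
  have a1 := Int.emod_nonneg u hP'.ne'
  have a2 := Int.emod_lt_of_pos u hP'
  have b1 := Int.emod_nonneg v hQ'.ne'
  have b2 := Int.emod_lt_of_pos v hQ'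
  rw [e1, e2]
  generalize X + u / P = X' at *
  generalize Y + v / Q = Y' at *
  obtain ⟨s, hs⟩ := Int.eq_ofNat_of_zero_le a1
  obtain ⟨t, ht⟩ := Int.eq_ofNat_of_zero_le b1
  rw [hs] at a2 ⊢
  rw [ht] at b2 ⊢
  have a2' : s < P := by exact_mod_cast a2
  have b2' : t < Q := by exact_mod_cast b2
  by_cases hX : 0 ≤ X'
  · by_cases hY : 0 ≤ Y'
    · obtain ⟨x, rfl⟩ := Int.eq_ofNat_of_zero_le hX
      obtain ⟨y, rfl⟩ := Int.eq_ofNat_of_zero_le hY
      have c1 : ((P : ℤ) * (x : ℤ) + (s : ℤ)) = ((P * x + s : ℕ) : ℤ) := by push_cast; ring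
      have c2 : ((Q : ℤ) * (y : ℤ) + (t : ℤ)) = ((Q * y + t : ℕ) : ℤ) := by push_cast; ring
      rw [c1, c2, ext_nat, ext_nat, h _ _ _ _ a2' b2']
      simp
    · have hn : ¬ 0 ≤ (Q : ℤ) * Y' + (t : ℤ) := by
        have : (Q : ℤ) * Y' ≤ Q * (-1) := by
          apply mul_le_mul_of_nonneg_left _ hQ'.le
          omega
        have b3 : (t : ℤ) < Q := by exact_mod_cast b2'
        omega
      simp [ext, hY, hn]
  · have hn : ¬ 0 ≤ (P : ℤ) * X' + (s : ℤ) := by
      have : (P : ℤ) * X' ≤ P * (-1) := by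
        apply mul_le_mul_of_nonneg_left _ hP'.le
        omega
      have b3 : (s : ℤ) < P := by exact_mod_cast a2'
      omega
    simp [ext, hX, hn]

/-- The type of windows. -/
abbrev Win (Δ : Type) (rx ry : ℤ) : Type := Set.Icc (-rx) rx → Set.Icc (-ry) ry → Option Δ

/-- The window of `T` around `(i, j)`. -/
def win {Δ : Type} (T : ℕ → ℕ → Δ) (rx ry : ℤ) (i j : ℕ) : Win Δ rx ry :=
  fun x y => ext T (i + x.1) (j + y.1)

theorem ediv_mem {P : ℕ} (hP : 0 < P) {r u : ℤ} (h1 : -r ≤ u) (h2 : u ≤ r + P - 1) (hr : 0 ≤ r) :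
    u / P ∈ Set.Icc (-r) r := by
  have hP' : (1 : ℤ) ≤ P := by exact_mod_cast hP
  constructor
  · rw [Int.le_ediv_iff_mul_le (by omega)]
    nlinarith
  · have : u / P < r + 1 := by
      rw [Int.ediv_lt_iff_lt_mul (by omega)]
      nlinarith
    omega

theorem win_sub {Δ : Type} {T : ℕ → ℕ → Δ} {P Q : ℕ} (hP : 0 < P) (hQ : 0 < Q)
    {M : Δ → ℕ → ℕ → Δ} (h : Sub P Q T M) {rx ry : ℤ} (hrx : 0 ≤ rx) (hry : 0 ≤ ry)
    {I J I' J' : ℕ} (hw : win T rx ry I J = win T rx ry I' J') {s t : ℕ} (hs : s < P)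
    (ht : t < Q) :
    win T rx ry (P * I + s) (Q * J + t) = win T rx ry (P * I' + s) (Q * J' + t) := by
  funext x y
  obtain ⟨x, hx1, hx2⟩ := x
  obtain ⟨y, hy1, hy2⟩ := y
  have hx3 := ediv_mem hP (u := s + x) (r := rx) (by omega) (by omega) hrx
  have hy3 := ediv_mem hQ (u := t + y) (r := ry) (by omega) (by omega) hry
  have h5 := congrFun (congrFun hw ⟨_, hx3⟩) ⟨_, hy3⟩
  simp only [win] at h5 ⊢
  have c1 : ∀ I : ℕ, (((P * I + s : ℕ) : ℤ) + x) = (P : ℤ) * (I : ℤ) + (s + x) := by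
    intro I; push_cast; ring
  have c2 : ∀ J : ℕ, (((Q * J + t : ℕ) : ℤ) + y) = (Q : ℤ) * (J : ℤ) + (t + y) := by
    intro J; push_cast; ring
  rw [c1, c1, c2, c2, ext_sub hP hQ h, ext_sub hP hQ h, h5]

/-! ### The bits -/

/-- The bit at position `(s, t)` of a block whose content is `n`. -/
def mark {N : Type} {P Q : ℕ} (code : N → Fin (P - 2) × Fin (Q - 2) → Bool) (n : N)
    (s t : ℕ) : Bool :=
  if s = 0 ∨ t = 0 then true
  else if s = 1 ∨ t = 1 then false
  else if h : s - 2 < P - 2 ∧ t - 2 < Q - 2 then code n (⟨s - 2, h.1⟩, ⟨t - 2, h.2⟩) else false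

theorem mark_inj {N : Type} {P Q : ℕ} {code : N → Fin (P - 2) × Fin (Q - 2) → Bool}
    (hc : Injective code) {n n' : N}
    (h : ∀ s t, s < P → t < Q → mark code n s t = mark code n' s t) : n = n' := by
  apply hc
  funext ⟨⟨s, hs⟩, ⟨t, ht⟩⟩
  have := h (s + 2) (t + 2) (by omega) (by omega)
  simpa [mark, hs, ht] using this

/-- The bits of the labelling whose block contents are given by `W`. -/
def bit {N : Type} {P Q : ℕ} (code : N → Fin (P - 2) × Fin (Q - 2) → Bool) (W : ℕ → ℕ → N)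
    (i j : ℕ) : Bool :=
  mark code (W (i / P) (j / Q)) (i % P) (j % Q)

section bits

variable {N : Type} {P Q : ℕ} {code : N → Fin (P - 2) × Fin (Q - 2) → Bool} {W : ℕ → ℕ → N}

theorem bit_block {I J s t : ℕ} (hs : s < P) (ht : t < Q) :
    bit code W (P * I + s) (Q * J + t) = mark code (W I J) s t := by
  have hP : 0 < P := by omega
  have hQ : 0 < Q := by omega
  simp only [bit, Nat.mul_add_mod, Nat.mod_eq_of_lt hs, Nat.mod_eq_of_lt ht,
    Nat.mul_add_div hP, Nat.mul_add_div hQ, Nat.div_eq_of_lt hs, Nat.div_eq_of_lt ht, add_zero]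

theorem exists_add_mod (n P r : ℕ) (hr : r < P) : ∃ a, a < P ∧ (n + a) % P = r := by
  have h1 : n % P < P := Nat.mod_lt _ (by omega)
  by_cases h : n % P ≤ r
  · refine ⟨r - n % P, by omega, ?_⟩
    rw [← Nat.mod_add_mod, Nat.add_sub_cancel' h, Nat.mod_eq_of_lt hr]
  · refine ⟨r + P - n % P, by omega, ?_⟩
    rw [← Nat.mod_add_mod, Nat.add_sub_cancel' (by omega), Nat.add_mod_right, Nat.mod_eq_of_lt hr]

theorem sync (hP : 2 ≤ P) (hQ : 2 ≤ Q) {i j i' j' : ℕ}
    (h : ∀ a b, a < P → b < Q → bit code W (i + a) (j + b) = bit code W (i' + a) (j' + b)) :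
    (∀ a, (i + a) % P = 0 → (i' + a) % P = 0) ∧ (∀ b, (j + b) % Q = 0 → (j' + b) % Q = 0) := by
  constructor
  · intro a₀ ha₀
    obtain ⟨a, ha, ha'⟩ := exists_add_mod i P 0 (by omega)
    have h1 : (i' + a) % P = 0 := by
      by_contra hne
      obtain ⟨b, hb, hb'⟩ := exists_add_mod j' Q 1 (by omega)
      have := h a b ha hb
      simp [bit, mark, ha', hb', hne] at this
    have h2 : i + a ≡ i + a₀ [MOD P] := by
      rw [Nat.ModEq, ha', ha₀]
    have h3 : a ≡ a₀ [MOD P] := Nat.ModEq.add_left_cancel' _ h2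
    have h4 : i' + a ≡ i' + a₀ [MOD P] := Nat.ModEq.add_left _ h3
    rw [Nat.ModEq, h1] at h4
    exact h4.symm
  · intro b₀ hb₀
    obtain ⟨b, hb, hb'⟩ := exists_add_mod j Q 0 (by omega)
    have h1 : (j' + b) % Q = 0 := by
      by_contra hne
      obtain ⟨a, ha, ha'⟩ := exists_add_mod i' P 1 (by omega)
      have := h a b ha hb
      simp [bit, mark, ha', hb', hne] at this
    have h2 : j + b ≡ j + b₀ [MOD Q] := by
      rw [Nat.ModEq, hb', hb₀]
    have h3 : b ≡ b₀ [MOD Q] := Nat.ModEq.add_left_cancel' _ h2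
    have h4 : j' + b ≡ j' + b₀ [MOD Q] := Nat.ModEq.add_left _ h3
    rw [Nat.ModEq, h1] at h4
    exact h4.symm

theorem W_eq (hc : Injective code) {I J I' J' : ℕ}
    (h : ∀ s t, s < P → t < Q → bit code W (P * I + s) (Q * J + t)
      = bit code W (P * I' + s) (Q * J' + t)) : W I J = W I' J' := by
  apply mark_inj hc
  intro s t hs ht
  rw [← bit_block (code := code) (W := W) hs ht, h s t hs ht, bit_block hs ht]

end bits

section decode

variable {Δ : Type} {T : ℕ → ℕ → Δ} {P Q : ℕ} {M : Δ → ℕ → ℕ → Δ} {rx ry : ℤ}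
  {code : Win Δ rx ry → Fin (P - 2) × Fin (Q - 2) → Bool}

theorem core (hP : 2 ≤ P) (hQ : 2 ≤ Q) (hT : Sub P Q T M) (hc : Injective code)
    {c i j i' j' a b a₁ b₁ : ℕ}
    (h : ∀ a b, a + b ≤ c → bit code (win T rx ry) (i + a) (j + b)
      = bit code (win T rx ry) (i' + a) (j' + b))
    (h1 : (i + a₁) % P = 0) (h2 : (j + b₁) % Q = 0) (h1' : (i' + a₁) % P = 0)
    (h2' : (j' + b₁) % Q = 0) (hle : a₁ + P + (b₁ + Q) ≤ c + 2)
    (hx : ((a : ℤ) - a₁) / P ∈ Set.Icc (-rx) rx) (hy : ((b : ℤ) - b₁) / Q ∈ Set.Icc (-ry) ry) :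
    T (i + a) (j + b) = T (i' + a) (j' + b) := by
  obtain ⟨I, hI⟩ := Nat.dvd_of_mod_eq_zero h1
  obtain ⟨J, hJ⟩ := Nat.dvd_of_mod_eq_zero h2
  obtain ⟨I', hI'⟩ := Nat.dvd_of_mod_eq_zero h1'
  obtain ⟨J', hJ'⟩ := Nat.dvd_of_mod_eq_zero h2'
  have hW : win T rx ry I J = win T rx ry I' J' := by
    apply W_eq hc
    intro s t hs ht
    rw [← hI, ← hJ, ← hI', ← hJ', add_assoc, add_assoc, add_assoc, add_assoc]
    exact h _ _ (by omega)
  have h5 := congrFun (congrFun hW ⟨_, hx⟩) ⟨_, hy⟩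
  simp only [win] at h5
  have c1 : ((i + a : ℕ) : ℤ) = (P : ℤ) * (I : ℤ) + ((a : ℤ) - a₁) := by
    have : ((i + a₁ : ℕ) : ℤ) = ((P * I : ℕ) : ℤ) := by rw [hI]
    push_cast at this ⊢
    linarith
  have c2 : ((j + b : ℕ) : ℤ) = (Q : ℤ) * (J : ℤ) + ((b : ℤ) - b₁) := by
    have : ((j + b₁ : ℕ) : ℤ) = ((Q * J : ℕ) : ℤ) := by rw [hJ]
    push_cast at this ⊢
    linarith
  have c3 : ((i' + a : ℕ) : ℤ) = (P : ℤ) * (I' : ℤ) + ((a : ℤ) - a₁) := by
    have : ((i' + a₁ : ℕ) : ℤ) = ((P * I' : ℕ) : ℤ) := by rw [hI']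
    push_cast at this ⊢
    linarith
  have c4 : ((j' + b : ℕ) : ℤ) = (Q : ℤ) * (J' : ℤ) + ((b : ℤ) - b₁) := by
    have : ((j' + b₁ : ℕ) : ℤ) = ((Q * J' : ℕ) : ℤ) := by rw [hJ']
    push_cast at this ⊢
    linarith
  have h6 : ext T ((i + a : ℕ) : ℤ) ((j + b : ℕ) : ℤ)
      = ext T ((i' + a : ℕ) : ℤ) ((j' + b : ℕ) : ℤ) := by
    rw [c1, c2, c3, c4, ext_sub (by omega) (by omega) hT, ext_sub (by omega) (by omega) hT, h5]
  rw [ext_nat, ext_nat] at h6
  exact Option.some.inj h6

theorem ediv_mem' {P : ℕ} (hP : 0 < P) {r u : ℤ} (h1 : -r * P ≤ u) (h2 : u < (r + 1) * P) :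
    u / P ∈ Set.Icc (-r) r := by
  have hP' : (0 : ℤ) < P := by exact_mod_cast hP
  constructor
  · rw [Int.le_ediv_iff_mul_le hP']
    exact h1
  · have : u / P < r + 1 := by
      rw [Int.ediv_lt_iff_lt_mul hP']
      exact h2
    omega

/-- The labels on the base of a triangle of size `4 P + 4 Q` are determined by its bits. -/
theorem decode (hP : 2 ≤ P) (hQ : 2 ≤ Q) (hT : Sub P Q T M) (hc : Injective code)
    (hrx : rx = ((2 * Q / P + 2 : ℕ) : ℤ)) (hry : ry = ((2 * P / Q + 2 : ℕ) : ℤ))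
    {i j i' j' : ℕ}
    (h : ∀ a b, a + b ≤ 4 * P + 4 * Q → bit code (win T rx ry) (i + a) (j + b)
      = bit code (win T rx ry) (i' + a) (j' + b)) {a b : ℕ} (hab : a + b = 4 * P + 4 * Q) :
    T (i + a) (j + b) = T (i' + a) (j' + b) := by
  obtain ⟨s1, s2⟩ := sync (code := code) (W := win T rx ry) hP hQ (i := i) (j := j) (i' := i')
    (j' := j') (fun a b ha hb => h a b (by omega))
  have q1 : 2 * Q < 2 * Q / P * P + P := Nat.lt_div_mul_add (by omega)
  have q2 : 2 * P < 2 * P / Q * Q + Q := Nat.lt_div_mul_add (by omega)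
  have q1' : (2 * Q : ℤ) < ((2 * Q / P : ℕ) : ℤ) * P + P := by exact_mod_cast q1
  have q2' : (2 * P : ℤ) < ((2 * P / Q : ℕ) : ℤ) * Q + Q := by exact_mod_cast q2
  have q3 : (0 : ℤ) ≤ ((2 * Q / P : ℕ) : ℤ) * P := by positivity
  have q4 : (0 : ℤ) ≤ ((2 * P / Q : ℕ) : ℤ) * Q := by positivity
  have er1 : (rx + 1) * P = ((2 * Q / P : ℕ) : ℤ) * P + P + 2 * P := by
    rw [hrx]; push_cast; ring
  have er2 : (ry + 1) * Q = ((2 * P / Q : ℕ) : ℤ) * Q + Q + 2 * Q := by
    rw [hry]; push_cast; ring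
  have el1 : -rx * P = -(((2 * Q / P : ℕ) : ℤ) * P) - 2 * P := by
    rw [hrx]; push_cast; ring
  have el2 : -ry * Q = -(((2 * P / Q : ℕ) : ℤ) * Q) - 2 * Q := by
    rw [hry]; push_cast; ring
  by_cases hA : 2 * P + 2 * Q ≤ a
  · obtain ⟨u, hu, hu'⟩ := exists_add_mod (i + (a - 2 * P - 2 * Q + 1)) P 0 (by omega)
    obtain ⟨v, hv, hv'⟩ := exists_add_mod (j + (b - Q)) Q 0 (by omega)
    rw [add_assoc] at hu' hv'
    refine core hP hQ hT hc h hu' hv' (s1 _ hu') (s2 _ hv') (by omega) ?_ ?_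
    · apply ediv_mem' (by omega)
      · rw [el1]
        omega
      · rw [er1]
        omega
    · apply ediv_mem' (by omega)
      · rw [el2]
        omega
      · rw [er2]
        omega
  · obtain ⟨u, hu, hu'⟩ := exists_add_mod (j + (b - 2 * P - 2 * Q + 1)) Q 0 (by omega)
    obtain ⟨v, hv, hv'⟩ := exists_add_mod (i + (a - P)) P 0 (by omega)
    rw [add_assoc] at hu' hv'
    refine core hP hQ hT hc h hv' hu' (s1 _ hv') (s2 _ hu') (by omega) ?_ ?_
    · apply ediv_mem' (by omega)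
      · rw [el1]
        omega
      · rw [er1]
        omega
    · apply ediv_mem' (by omega)
      · rw [el2]
        omega
      · rw [er2]
        omega

end decode

/-! ### Capacity -/

theorem capacity (C P Q : ℕ) (hP : 100 * C + 100 ≤ P) (hQ : 100 * C + 100 ≤ Q) :
    C * (2 * (2 * P / Q + 2) + 1) * (2 * (2 * Q / P + 2) + 1) ≤ (P - 2) * (Q - 2) := by
  obtain ⟨x, rfl⟩ : ∃ x, P = x + 2 := ⟨P - 2, by omega⟩
  obtain ⟨y, rfl⟩ : ∃ y, Q = y + 2 := ⟨Q - 2, by omega⟩
  simp only [Nat.add_sub_cancel]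
  have h1 : 2 * (x + 2) / (y + 2) * (y + 2) ≤ 2 * (x + 2) := Nat.div_mul_le_self _ _
  have h2 : 2 * (y + 2) / (x + 2) * (x + 2) ≤ 2 * (y + 2) := Nat.div_mul_le_self _ _
  have h3 : 2 * (x + 2) / (y + 2) ≤ 2 * (x + 2) := Nat.div_le_self _ _
  have h4 : 2 * (y + 2) / (x + 2) ≤ 2 * (y + 2) := Nat.div_le_self _ _
  generalize 2 * (x + 2) / (y + 2) = a at *
  generalize 2 * (y + 2) / (x + 2) = b at *
  have h5 : a * b ≤ 4 := by
    have h6 : (a * b) * ((x + 2) * (y + 2)) ≤ 4 * ((x + 2) * (y + 2)) := by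
      calc (a * b) * ((x + 2) * (y + 2)) = (a * (y + 2)) * (b * (x + 2)) := by ring
        _ ≤ (2 * (x + 2)) * (2 * (y + 2)) := Nat.mul_le_mul h1 h2
        _ = 4 * ((x + 2) * (y + 2)) := by ring
    exact Nat.le_of_mul_le_mul_right h6 (by positivity)
  calc C * (2 * (a + 2) + 1) * (2 * (b + 2) + 1)
      = C * (4 * (a * b) + 10 * a + 10 * b + 25) := by ring
    _ ≤ C * (4 * 4 + 10 * (2 * (x + 2)) + 10 * (2 * (y + 2)) + 25) := by gcongr
    _ = C * (121 + 20 * x + 20 * y) := by ring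
    _ ≤ x * y := by nlinarith [Nat.zero_le C, Nat.zero_le x, Nat.zero_le y]

theorem card_Icc (n : ℕ) [Fintype (Set.Icc (-(n : ℤ)) (n : ℤ))] :
    Fintype.card (Set.Icc (-(n : ℤ)) (n : ℤ)) = 2 * n + 1 := by
  have h : Nat.card (Set.Icc (-(n : ℤ)) (n : ℤ)) = 2 * n + 1 := by
    rw [Nat.card_coe_set_eq, ← Finset.coe_Icc, Set.ncard_coe_finset, Int.card_Icc]
    omega
  rw [← h, Nat.card_eq_fintype_card]

theorem exists_code (Δ : Type) [Finite Δ] :
    ∃ C : ℕ, ∀ P Q : ℕ, 100 * C + 100 ≤ P → 100 * C + 100 ≤ Q →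
      ∃ code : Win Δ ((2 * Q / P + 2 : ℕ) : ℤ) ((2 * P / Q + 2 : ℕ) : ℤ) →
        Fin (P - 2) × Fin (Q - 2) → Bool, Injective code := by
  classical
  have := Fintype.ofFinite Δ
  refine ⟨Fintype.card (Option Δ), fun P Q hP hQ => ?_⟩
  have hcard : Fintype.card (Win Δ ((2 * Q / P + 2 : ℕ) : ℤ) ((2 * P / Q + 2 : ℕ) : ℤ))
      ≤ Fintype.card (Fin (P - 2) × Fin (Q - 2) → Bool) := by
    simp only [Win, Fintype.card_fun, Fintype.card_prod, Fintype.card_fin, Fintype.card_bool]
    rw [card_Icc, card_Icc, ← pow_mul]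
    calc Fintype.card (Option Δ) ^ ((2 * (2 * P / Q + 2) + 1) * (2 * (2 * Q / P + 2) + 1))
        ≤ (2 ^ Fintype.card (Option Δ))
            ^ ((2 * (2 * P / Q + 2) + 1) * (2 * (2 * Q / P + 2) + 1)) := by
          exact Nat.pow_le_pow_left Nat.lt_two_pow_self.le _
      _ = 2 ^ (Fintype.card (Option Δ) * (2 * (2 * P / Q + 2) + 1)
            * (2 * (2 * Q / P + 2) + 1)) := by
          rw [← pow_mul]; congr 1; ring
      _ ≤ 2 ^ ((P - 2) * (Q - 2)) :=
          Nat.pow_le_pow_right (by norm_num) (capacity _ P Q hP hQ)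
  obtain ⟨e⟩ := Function.Embedding.nonempty_of_card_le hcard
  exact ⟨e, e.injective⟩

/-! ### The simulating automaton -/

section build

variable (A : RTSTA σ) (c : ℕ)

/-- The states of the simulating automaton: the number of known levels (at most `c`), the bits of
the triangle above the node, and the inputs of the nodes of `A` on the base of the triangle. -/
abbrev St : Type :=
  Fin (c + 1) × (Fin (c + 1) → Fin (c + 1) → Bool) × (Fin (c + 1) → Option A.Γ × Option A.Γ)

/-- The bits of the triangle of size `m` above `(i, j)`. -/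
def patt (B : ℕ → ℕ → Bool) (m i j : ℕ) : Fin (c + 1) → Fin (c + 1) → Bool :=
  fun a b => if a.1 + b.1 ≤ m then B (i + a.1) (j + b.1) else false

/-- The bits of the new triangle. -/
def nextBits (m : ℕ) (β : Bool) (l r : Fin (c + 1) → Fin (c + 1) → Bool) :
    Fin (c + 1) → Fin (c + 1) → Bool :=
  fun a b => if a.1 + b.1 ≤ m then
    (if a.1 = 0 then (if b.1 = 0 then β else l a ⟨b.1 - 1, by omega⟩)
      else r ⟨a.1 - 1, by omega⟩ b) else false

theorem nextBits_zero (B : ℕ → ℕ → Bool) (i j : ℕ) (l r : Fin (c + 1) → Fin (c + 1) → Bool) :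
    nextBits c 0 (B i j) l r = patt c B 0 i j := by
  funext a b
  unfold nextBits patt
  by_cases h : a.1 + b.1 ≤ 0
  · have h1 : a.1 = 0 := by omega
    have h2 : b.1 = 0 := by omega
    simp [h1, h2]
  · simp [h]

theorem nextBits_patt (B : ℕ → ℕ → Bool) {m m' : ℕ} (hm : m ≤ m' + 1) (i j : ℕ) :
    nextBits c m (B i j) (patt c B m' i (j + 1)) (patt c B m' (i + 1) j) = patt c B m i j := by
  funext a b
  unfold nextBits patt
  by_cases h : a.1 + b.1 ≤ m
  · simp only [h, if_true]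
    by_cases h1 : a.1 = 0
    · by_cases h2 : b.1 = 0
      · simp [h1, h2]
      · have h3 : a.1 + (b.1 - 1) ≤ m' := by omega
        simp only [h1, h2, if_true, if_false]
        rw [if_pos (by simpa [h1] using h3)]
        congr 1
        omega
    · have h3 : (a.1 - 1) + b.1 ≤ m' := by omega
      simp only [h1, if_false]
      rw [if_pos h3]
      congr 1
      omega
  · simp [h]

/-- The transition functions of the simulating automaton, one for each bit. -/
def step (dec : (Fin (c + 1) → Fin (c + 1) → Bool) → Fin (c + 1) → A.Δ) (β : Bool) :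
    Option (σ ⊕ St A c) → Option (σ ⊕ St A c) → σ ⊕ St A c
  | none, some (Sum.inl x) =>
    Sum.inr (⟨0, by omega⟩, nextBits c 0 β (fun _ _ => false) (fun _ _ => false),
      fun a => if a.1 ≤ 0 then (none, some (A.inp x)) else (none, none))
  | some (Sum.inr l), some (Sum.inr r) =>
    if h : l.1.1 < c then
      Sum.inr (⟨l.1.1 + 1, by omega⟩, nextBits c (l.1.1 + 1) β l.2.1 r.2.1,
        fun a => if a.1 ≤ l.1.1 then l.2.2 a
          else if a.1 ≤ l.1.1 + 1 then r.2.2 ⟨a.1 - 1, by omega⟩ else (none, none))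
    else
      Sum.inr (⟨c, by omega⟩, nextBits c c β l.2.1 r.2.1,
        fun a => (some (A.g (dec l.2.1 a) (l.2.2 a).1 (l.2.2 a).2),
          some (A.g (dec r.2.1 a) (r.2.2 a).1 (r.2.2 a).2)))
  | _, _ => Sum.inr (⟨0, by omega⟩, fun _ _ => false, fun _ => (none, none))

/-- The inputs of a node of `A`. -/
def inputs (w : ℕ → σ) : ℕ → ℕ → ℕ → Option A.Γ × Option A.Γ
  | 0, i, _ => (none, some (A.inp (w i)))
  | d + 1, i, j => (some (A.out w d i (j + 1)), some (A.out w d (i + 1) j))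

theorem out_eq (w : ℕ → σ) (d i j : ℕ) :
    A.out w d i j = A.g (A.T i j) (inputs A w d i j).1 (inputs A w d i j).2 := by
  cases d <;> rfl

/-- The state that the simulating automaton should have at a node. -/
def desc (B : ℕ → ℕ → Bool) (w : ℕ → σ) (d i j : ℕ) : St A c :=
  (⟨min d c, by omega⟩, patt c B (min d c) i j, fun a => if a.1 ≤ min d c then
    inputs A w (d - min d c) (i + a.1) (j + (min d c - a.1)) else (none, none))

/-- Evaluation of the triangle above the root of the trellis. -/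
def ev (ins : ℕ → Option A.Γ × Option A.Γ) : ℕ → ℕ → ℕ → A.Γ
  | 0, a, b => A.g (A.T a b) (ins a).1 (ins a).2
  | k + 1, a, b => A.g (A.T a b) (some (ev ins k a (b + 1))) (some (ev ins k (a + 1) b))

/-- The accepting states. -/
def accSet : Set (σ ⊕ St A c) :=
  {x | ∃ s, x = Sum.inr s ∧
    ev A (fun a => if h : a < c + 1 then s.2.2 ⟨a, h⟩ else (none, none)) s.1.1 0 0 ∈ A.acc}

/-- The simulating automaton. -/
def sim [Finite σ] (Δ' : Type) (hΔ' : Finite Δ') (T' : ℕ → ℕ → Δ' × Bool)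
    (dec : (Fin (c + 1) → Fin (c + 1) → Bool) → Fin (c + 1) → A.Δ) : RTSTA σ where
  Γ := σ ⊕ St A c
  Δ := Δ' × Bool
  finΓ := by
    have := A.finΓ
    infer_instance
  finΔ := inferInstance
  inp := Sum.inl
  inp_inj := Sum.inl_injective
  acc := accSet A c
  T := T'
  g := fun δ => step A c dec δ.2

theorem sim_out [Finite σ] (Δ' : Type) (hΔ' : Finite Δ') (T' : ℕ → ℕ → Δ' × Bool)
    (dec : (Fin (c + 1) → Fin (c + 1) → Bool) → Fin (c + 1) → A.Δ)
    (hdec : ∀ i j (a : Fin (c + 1)), dec (patt c (fun i j => (T' i j).2) c i j) a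
      = A.T (i + a.1) (j + (c - a.1))) (w : ℕ → σ) :
    ∀ d i j, (sim A c Δ' hΔ' T' dec).out w d i j
      = Sum.inr (desc A c (fun i j => (T' i j).2) w d i j) := by
  intro d
  induction d with
  | zero =>
    intro i j
    show step A c dec (T' i j).2 none (some (Sum.inl (w i))) = _
    simp only [step, desc]
    congr 1
    refine Prod.ext ?_ (Prod.ext ?_ ?_)
    · apply Fin.ext
      simp
    · have := nextBits_zero c (fun i j => (T' i j).2) i j (fun _ _ => false) (fun _ _ => false)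
      simpa using this
    · funext a
      by_cases h : a.1 ≤ 0
      · have h1 : a.1 = 0 := by omega
        simp [h1, inputs]
      · simp [h]
  | succ d ih =>
    intro i j
    show step A c dec (T' i j).2 (some ((sim A c Δ' hΔ' T' dec).out w d i (j + 1)))
      (some ((sim A c Δ' hΔ' T' dec).out w d (i + 1) j)) = _
    rw [ih, ih]
    simp only [step]
    by_cases hd : d < c
    · have hm : min d c = d := by omega
      have hm' : min (d + 1) c = d + 1 := by omega
      have h1 : (desc A c (fun i j => (T' i j).2) w d i (j + 1)).1.1 < c := by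
        simp only [desc]; omega
      rw [dif_pos h1]
      congr 1
      refine Prod.ext ?_ (Prod.ext ?_ ?_)
      · apply Fin.ext
        simp only [desc]
        omega
      · have := nextBits_patt c (fun i j => (T' i j).2) (m := d + 1) (m' := d) le_rfl i j
        simpa only [desc, hm, hm'] using this
      · funext a
        simp only [desc, hm, hm']
        by_cases ha : a.1 ≤ d
        · rw [if_pos ha, if_pos ha, if_pos (by omega)]
          congr 1
          · omega
          · omega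
        · rw [if_neg ha]
          by_cases ha' : a.1 ≤ d + 1
          · rw [if_pos ha', if_pos ha', if_pos (by omega)]
            congr 1
            · omega
            · omega
            · omega
          · rw [if_neg ha', if_neg ha']
    · have hm : min d c = c := by omega
      have hm' : min (d + 1) c = c := by omega
      have h1 : ¬ (desc A c (fun i j => (T' i j).2) w d i (j + 1)).1.1 < c := by
        simp only [desc]; omega
      rw [dif_neg h1]
      congr 1
      refine Prod.ext ?_ (Prod.ext ?_ ?_)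
      · apply Fin.ext
        simp only [desc]
        omega
      · have := nextBits_patt c (fun i j => (T' i j).2) (m := c) (m' := c) (by omega) i j
        simpa only [desc, hm, hm'] using this
      · funext a
        have ha : a.1 ≤ c := by omega
        simp only [desc, hm, hm', if_pos ha]
        rw [hdec, hdec]
        have e1 : d + 1 - c = (d - c) + 1 := by omega
        rw [e1]
        have e2 : j + 1 + (c - a.1) = j + (c - a.1) + 1 := by omega
        have e3 : i + 1 + a.1 = i + a.1 + 1 := by omega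
        rw [e2, e3, ← out_eq, ← out_eq, inputs]

theorem ev_eq (w : ℕ → σ) (d m : ℕ) (hm : m ≤ d) (ins : ℕ → Option A.Γ × Option A.Γ)
    (hins : ∀ a, a ≤ m → ins a = inputs A w (d - m) a (m - a)) :
    ∀ k a b, a + b + k = m → ev A ins k a b = A.out w (d - (a + b)) a b := by
  intro k
  induction k with
  | zero =>
    intro a b h
    rw [ev, hins a (by omega), out_eq]
    have e1 : m - a = b := by omega
    have e2 : a + b = m := by omega
    rw [e1, e2]
  | succ k ih =>
    intro a b h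
    rw [ev, ih a (b + 1) (by omega), ih (a + 1) b (by omega)]
    have e1 : d - (a + b) = (d - (a + b + 1)) + 1 := by omega
    rw [e1, RTSTA.out]
    have e2 : a + 1 + b = a + b + 1 := by omega
    rw [e2]
    rfl

theorem sim_lang [Finite σ] (Δ' : Type) (hΔ' : Finite Δ') (T' : ℕ → ℕ → Δ' × Bool)
    (dec : (Fin (c + 1) → Fin (c + 1) → Bool) → Fin (c + 1) → A.Δ)
    (hdec : ∀ i j (a : Fin (c + 1)), dec (patt c (fun i j => (T' i j).2) c i j) a
      = A.T (i + a.1) (j + (c - a.1))) : (sim A c Δ' hΔ' T' dec).lang = A.lang := by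
  ext x
  have key : ∀ (w : ℕ → σ) (d : ℕ), (sim A c Δ' hΔ' T' dec).out w d 0 0
      ∈ (sim A c Δ' hΔ' T' dec).acc ↔ A.out w d 0 0 ∈ A.acc := by
    intro w d
    rw [sim_out A c Δ' hΔ' T' dec hdec w d 0 0]
    have h1 := ev_eq A w d (min d c) (by omega)
      (fun a => if h : a < c + 1 then (desc A c (fun i j => (T' i j).2) w d 0 0).2.2 ⟨a, h⟩
        else (none, none)) (by
        intro a ha
        rw [dif_pos (by omega)]
        simp only [desc]
        rw [if_pos ha, zero_add, zero_add]) (min d c) 0 0 (by omega)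
    simp only [add_zero, Nat.sub_zero] at h1
    constructor
    · rintro ⟨s, hs, hs'⟩
      obtain rfl := Sum.inr_injective hs
      rw [← h1]
      exact hs'
    · intro h
      refine ⟨_, rfl, ?_⟩
      rw [← h1] at h
      exact h
  constructor
  · rintro ⟨h, hx⟩
    exact ⟨h, (key _ _).1 hx⟩
  · rintro ⟨h, hx⟩
    exact ⟨h, (key _ _).2 hx⟩

theorem sim_types [Finite σ] (Δ' : Type) (hΔ' : Finite Δ') (T' : ℕ → ℕ → Δ' × Bool)
    (dec : (Fin (c + 1) → Fin (c + 1) → Bool) → Fin (c + 1) → A.Δ) :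
    (sim A c Δ' hΔ' T' dec).types ≤ 2 := by
  classical
  have hsub : Set.range (sim A c Δ' hΔ' T' dec).g ⊆ Set.range (step A c dec) := by
    rintro _ ⟨δ, rfl⟩
    exact ⟨δ.2, rfl⟩
  unfold RTSTA.types
  calc (Set.range (sim A c Δ' hΔ' T' dec).g).ncard
      ≤ (Set.range (step A c dec)).ncard := Set.ncard_le_ncard hsub (Set.finite_range _)
    _ ≤ 2 := by
        rw [← Set.image_univ]
        calc (step A c dec '' Set.univ).ncard ≤ (Set.univ : Set Bool).ncard :=
              Set.ncard_image_le (Set.toFinite _)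
          _ = 2 := by simp

end build

/-- **Two types of processors suffice for modular real-time trellis automata**: the answer to Q1
is yes. -/
theorem result {σ : Type} [Finite σ] (A : RTSTA σ) (hA : A.Modular) :
    ∃ B : RTSTA σ, B.Modular ∧ B.lang = A.lang ∧ B.types ≤ 2 := by
  classical
  have := A.finΔ
  obtain ⟨p, q, hp, hq, M, hM⟩ := sub_of_modular hA
  obtain ⟨C, hC⟩ := exists_code A.Δ
  obtain ⟨M', hM'⟩ := sub_pow hp hq hM (100 * C + 100)
  have hP : 100 * C + 100 ≤ p ^ (100 * C + 100) := (lt_pow_of_le hp le_rfl).le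
  have hQ : 100 * C + 100 ≤ q ^ (100 * C + 100) := (lt_pow_of_le hq le_rfl).le
  generalize p ^ (100 * C + 100) = P at *
  generalize q ^ (100 * C + 100) = Q at *
  have hP2 : 2 ≤ P := by omega
  have hQ2 : 2 ≤ Q := by omega
  have hcode' := hC P Q hP hQ
  obtain ⟨rx, hrx⟩ : ∃ rx : ℤ, rx = ((2 * Q / P + 2 : ℕ) : ℤ) := ⟨_, rfl⟩
  obtain ⟨ry, hry⟩ : ∃ ry : ℤ, ry = ((2 * P / Q + 2 : ℕ) : ℤ) := ⟨_, rfl⟩
  rw [← hrx, ← hry] at hcode'
  obtain ⟨code, hcode⟩ := hcode'
  have hrx0 : 0 ≤ rx := by rw [hrx]; positivity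
  have hry0 : 0 ≤ ry := by rw [hry]; positivity
  -- the new labelling
  let T' : ℕ → ℕ → Win A.Δ rx ry × Bool := fun i j =>
    (win A.T rx ry i j, bit code (win A.T rx ry) i j)
  have hT'sub : ∀ I J I' J' s t : ℕ, s < P → t < Q → T' I J = T' I' J' →
      T' (P * I + s) (Q * J + t) = T' (P * I' + s) (Q * J' + t) := by
    intro I J I' J' s t hs ht h
    have h1 : win A.T rx ry I J = win A.T rx ry I' J' := congrArg Prod.fst h
    refine Prod.ext ?_ ?_
    · exact win_sub (by omega) (by omega) hM' hrx0 hry0 h1 hs ht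
    · show bit code (win A.T rx ry) (P * I + s) (Q * J + t)
        = bit code (win A.T rx ry) (P * I' + s) (Q * J' + t)
      rw [bit_block hs ht, bit_block hs ht, h1]
  have hT'mod : IsModular T' := by
    refine modular_of_sub (p := P) (q := Q) hP2 hQ2
      (M := fun δ s t => if h : ∃ x : ℕ × ℕ, T' x.1 x.2 = δ then
        T' (P * h.choose.1 + s) (Q * h.choose.2 + t) else δ) ?_
    intro i j s t hs ht
    have hex : ∃ x : ℕ × ℕ, T' x.1 x.2 = T' i j := ⟨(i, j), rfl⟩
    show _ = dite _ _ _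
    rw [dif_pos hex]
    exact (hT'sub _ _ _ _ s t hs ht hex.choose_spec).symm
  -- decoding
  let c := 4 * P + 4 * Q
  let dec : (Fin (c + 1) → Fin (c + 1) → Bool) → Fin (c + 1) → A.Δ := fun π a =>
    if h : ∃ x : ℕ × ℕ, patt c (fun i j => (T' i j).2) c x.1 x.2 = π then
      A.T (h.choose.1 + a.1) (h.choose.2 + (c - a.1)) else A.T 0 0
  have hdec : ∀ i j (a : Fin (c + 1)), dec (patt c (fun i j => (T' i j).2) c i j) a
      = A.T (i + a.1) (j + (c - a.1)) := by
    intro i j a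
    have hex : ∃ x : ℕ × ℕ, patt c (fun i j => (T' i j).2) c x.1 x.2
      = patt c (fun i j => (T' i j).2) c i j := ⟨(i, j), rfl⟩
    show dite _ _ _ = _
    rw [dif_pos hex]
    refine decode hP2 hQ2 hM' hcode hrx hry ?_ (by omega)
    intro a b hab
    have h1 := congrFun (congrFun hex.choose_spec ⟨a, by omega⟩) ⟨b, by omega⟩
    simp only [patt] at h1
    rw [if_pos hab, if_pos hab] at h1
    exact h1
  have hfin : Finite (Win A.Δ rx ry) := inferInstance
  exact ⟨sim A c (Win A.Δ rx ry) hfin T' dec, hT'mod,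
    sim_lang A c (Win A.Δ rx ry) hfin T' dec hdec, sim_types A c (Win A.Δ rx ry) hfin T' dec⟩

end Pool.Agent.Results.MP_bd4c56_lc.TwoTypes
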